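import Pool.Agent.V5helper55.CR.Win

/-!
# Equal consecutive binary digits of the square root of two
-/

set_option autoImplicit false

namespace Pool.Agent.V5helper55.CR

open Polynomial Finset Pool.Agent.H323R2

/-- the number of `k < N` such that the binary digits `k + 1` and `k + 2` of `√2` are equal -/
noncomputable def same (N : ℕ) : ℕ :=
  ((range N).filter fun k => dg 2 (√2) (k + 1) = dg 2 (√2) (k + 2)).card

lemma dg_two (x : ℝ) (k : ℕ) : dg 2 x k = 0 ∨ dg 2 x k = 1 := by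
  unfold dg
  have h1 := Int.emod_nonneg ⌊x * ((2 : ℕ) : ℝ) ^ k⌋ (show ((2 : ℕ) : ℤ) ≠ 0 by norm_num)
  have h2 := Int.emod_lt_of_pos ⌊x * ((2 : ℕ) : ℝ) ^ k⌋ (show (0 : ℤ) < ((2 : ℕ) : ℤ) by norm_num)
  push_cast at h1 h2 ⊢
  omega

lemma l18 : (18 : ZMod 3) = 0 := by decide

lemma l2 : ((2 : ℕ) : ZMod 3) ≠ 0 := by decide

lemma map18 : (X ^ 3 - 18 * X : ℤ[X]).map (Int.castRingHom (ZMod 3)) = C 1 * X ^ (3 ^ 1) := by
  have h : (18 : (ZMod 3)[X]) = 0 := by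
    have h1 : (18 : (ZMod 3)[X]) = C (18 : ZMod 3) := rfl
    rw [h1, l18, C_0]
  simp only [Polynomial.map_sub, Polynomial.map_pow, Polynomial.map_X, Polynomial.map_mul,
    Polynomial.map_ofNat, h]
  simp

theorem same_pow : ∃ c : ℝ, 0 < c ∧ ∀ᶠ N : ℕ in Filter.atTop,
    c * (N : ℝ) ^ ((1 : ℝ) / 3) ≤ (same N : ℝ) := by
  have : Fact (Nat.Prime 3) := ⟨Nat.prime_three⟩
  obtain ⟨x, hx⟩ : ∃ x : ℝ, x = √2 := ⟨_, rfl⟩
  have hx2 : x ^ 2 = 2 := by rw [hx]; exact Real.sq_sqrt (by norm_num)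
  obtain ⟨F, hF⟩ : ∃ F : ℤ[X], F = X ^ 3 - 18 * X := ⟨_, rfl⟩
  have hFdeg : F.natDegree = 3 := by rw [hF]; compute_degree!
  have hFmap : F.map (Int.castRingHom (ZMod 3)) = C 1 * X ^ (3 ^ 1) := by
    rw [hF]
    exact map18
  have hroot : (F.map (Int.castRingHom ℝ)).eval (3 * x) = 0 := by
    rw [hF]
    simp only [Polynomial.map_sub, Polynomial.map_pow, Polynomial.map_X, Polynomial.map_mul,
      Polynomial.map_ofNat, eval_sub, eval_pow, eval_X, eval_mul, eval_ofNat]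
    linear_combination (27 * x) * hx2
  obtain ⟨f, hf⟩ : ∃ f : ℕ → ℤ, f = fun K => ⌊x * ((2 : ℕ) : ℝ) ^ K⌋ := ⟨_, rfl⟩
  obtain ⟨U, hU⟩ : ∃ U : ℕ → ℤ, U = fun K => f K + f (K + 1) + 1 := ⟨_, rfl⟩
  have hdig : ∀ k, dg 2 x (k + 1) = f (k + 1) - 2 * f k := by
    intro k
    unfold dg
    rw [digit_eq 2 le_rfl x k, hf]
    push_cast
    rfl
  have happ : ∀ K, |(U K : ℝ) - ((2 : ℕ) : ℝ) ^ K * (3 * x)| ≤ 3 := by
    intro K
    have a1 := Int.floor_le (x * ((2 : ℕ) : ℝ) ^ K)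
    have a2 := Int.lt_floor_add_one (x * ((2 : ℕ) : ℝ) ^ K)
    have a3 := Int.floor_le (x * ((2 : ℕ) : ℝ) ^ (K + 1))
    have a4 := Int.lt_floor_add_one (x * ((2 : ℕ) : ℝ) ^ (K + 1))
    rw [hU]
    simp only [hf]
    have e : ((2 : ℕ) : ℝ) ^ K * (3 * x) = x * ((2 : ℕ) : ℝ) ^ K + x * ((2 : ℕ) : ℝ) ^ (K + 1) := by
      rw [pow_succ]; push_cast; ring
    rw [e, abs_le]
    push_cast at a1 a2 a3 a4 ⊢
    constructor <;> linarith
  have hV : ∀ N, V 2 U N ≤ |U 0| + (same N : ℤ) := by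
    intro N
    unfold V same
    rw [Finset.sum_range_succ', add_comm, Finset.card_filter]
    push_cast
    apply add_le_add (le_of_eq rfl)
    apply Finset.sum_le_sum
    intro k _
    have e4 : dlt 2 U (k + 1) = dg 2 x (k + 1) + dg 2 x (k + 2) - 1 := by
      rw [hdig k, show k + 2 = (k + 1) + 1 by ring, hdig (k + 1)]
      simp only [dlt, hU]
      push_cast
      ring
    rw [e4, hx]
    have h1 := dg_two (√2) (k + 1)
    have h2 := dg_two (√2) (k + 2)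
    split_ifs with h
    · rcases h1 with h1 | h1 <;> rcases h2 with h2 | h2 <;> rw [h1, h2] <;> norm_num
    · rcases h1 with h1 | h1 <;> rcases h2 with h2 | h2 <;> rw [h1, h2] at h <;> rw [h1, h2] <;> simp_all
  have h3 : ∀ K, ¬ ((3 : ℕ) : ℤ) ∣ U K := by
    intro K
    have h1 := hdig K
    have h2 := dg_two x (K + 1)
    rw [hU]
    simp only
    push_cast
    omega
  obtain ⟨C1, hC1, h⟩ := count_bound 3 2 le_rfl l2 1 F 1 one_ne_zero hFmap (3 * x) 3 hroot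
  rw [hFdeg] at h
  obtain ⟨u, hu⟩ : ∃ u : ℝ, u = |(U 0 : ℝ)| := ⟨_, rfl⟩
  have hu0 : 0 ≤ u := by rw [hu]; exact abs_nonneg _
  obtain ⟨c, hc, hev⟩ := power_bound same 3 (by norm_num) (C1 * (1 + u) ^ 3) (by positivity) (by
    intro N
    have h4 := h U happ N
    have h5 : (range (N + 1)).filter (fun R => ¬ ((3 : ℕ) : ℤ) ∣ U (R / 3 ^ 1)) = range (N + 1) :=
      Finset.filter_true_of_mem fun R _ => h3 _
    rw [h5, Finset.card_range] at h4
    have h6 : (V 2 U N : ℝ) ≤ u + (same N : ℝ) := by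
      have := hV N
      have h7 : ((V 2 U N : ℤ) : ℝ) ≤ ((|U 0| + (same N : ℤ) : ℤ) : ℝ) := by exact_mod_cast this
      push_cast at h7
      rw [hu]; exact h7
    have h7 : (0 : ℝ) ≤ (same N : ℝ) := Nat.cast_nonneg _
    have h8 : (0 : ℝ) ≤ (V 2 U N : ℝ) := by exact_mod_cast V_nonneg 2 U N
    calc (N : ℝ) ≤ ((N + 1 : ℕ) : ℝ) := by push_cast; linarith
      _ ≤ C1 * (1 + (V 2 U N : ℝ)) ^ 3 := h4
      _ ≤ C1 * ((1 + u) * (1 + (same N : ℝ))) ^ 3 := by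
          apply mul_le_mul_of_nonneg_left _ hC1.le
          apply pow_le_pow_left₀ (by linarith)
          nlinarith
      _ = _ := by rw [mul_pow]; ring)
  refine ⟨c, hc, ?_⟩
  simpa using hev

end Pool.Agent.V5helper55.CR
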