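import Pool.Agent.H323R2.Chg

/-!
# Sparse integer approximations of `c x` give sparse integer approximations of `x`

`Dom b t s`: from every integer sequence `U K = b ^ K t + O(1)` one gets an integer sequence
`U' K = b ^ K s + O(1)` whose variation up to `N` is at most a power of the variation of `U` up to
`m N`. For real algebraic integers `x` and integers `c ≠ 0` we show `Dom b (c x) x`. The division by
prime numbers which do not divide `b` is the starting file `H323R2.Div`.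
-/

set_option autoImplicit false

namespace Pool.Agent.V5helper55.CR

open Polynomial Finset Pool.Agent.H323R2

/-- integer approximations of `b ^ K t` with small variation give integer approximations of
`b ^ K s` with small variation -/
def Dom (b : ℕ) (t s : ℝ) : Prop :=
  ∀ C0 : ℝ, ∃ C0' C : ℝ, 0 < C ∧ ∃ m κ : ℕ, 1 ≤ m ∧ 1 ≤ κ ∧ ∀ U : ℕ → ℤ,
    (∀ K, |(U K : ℝ) - (b : ℝ) ^ K * t| ≤ C0) → ∃ U' : ℕ → ℤ,
      (∀ K, |(U' K : ℝ) - (b : ℝ) ^ K * s| ≤ C0') ∧
      ∀ N : ℕ, (V b U' N : ℝ) ≤ C * (1 + (V b U (m * N) : ℝ)) ^ κ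

lemma V_nonneg' (b : ℕ) (U : ℕ → ℤ) (N : ℕ) : (0 : ℝ) ≤ (V b U N : ℝ) := by
  exact_mod_cast V_nonneg b U N

lemma Dom.refl (b : ℕ) (t : ℝ) : Dom b t t := by
  intro C0
  refine ⟨C0, 1, one_pos, 1, 1, le_rfl, le_rfl, fun U hU => ⟨U, hU, fun N => ?_⟩⟩
  rw [one_mul, pow_one, one_mul]
  linarith

lemma Dom.trans {b : ℕ} {t s r : ℝ} (h1 : Dom b t s) (h2 : Dom b s r) : Dom b t r := by
  intro C0
  obtain ⟨C1, A1, hA1, m1, κ1, hm1, hκ1, g1⟩ := h1 C0
  obtain ⟨C2, A2, hA2, m2, κ2, hm2, hκ2, g2⟩ := h2 C1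
  refine ⟨C2, A2 * (1 + A1) ^ κ2, by positivity, m1 * m2, κ1 * κ2, Nat.mul_pos hm1 hm2,
    Nat.mul_pos hκ1 hκ2, fun U hU => ?_⟩
  obtain ⟨U', hU', hV'⟩ := g1 U hU
  obtain ⟨U'', hU'', hV''⟩ := g2 U' hU'
  refine ⟨U'', hU'', fun N => (hV'' N).trans ?_⟩
  have h3 := hV' (m2 * N)
  rw [← mul_assoc] at h3
  have hV0 := V_nonneg' b U (m1 * m2 * N)
  have hV1 := V_nonneg' b U' (m2 * N)
  have h4 : (1 : ℝ) ≤ (1 + (V b U (m1 * m2 * N) : ℝ)) ^ κ1 := one_le_pow₀ (by linarith)
  have h5 : 1 + (V b U' (m2 * N) : ℝ) ≤ (1 + A1) * (1 + (V b U (m1 * m2 * N) : ℝ)) ^ κ1 := by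
    nlinarith
  calc A2 * (1 + (V b U' (m2 * N) : ℝ)) ^ κ2
      ≤ A2 * ((1 + A1) * (1 + (V b U (m1 * m2 * N) : ℝ)) ^ κ1) ^ κ2 :=
        mul_le_mul_of_nonneg_left (pow_le_pow_left₀ (by linarith) h5 _) hA2.le
    _ = _ := by rw [mul_pow, ← pow_mul]; ring

/-- multiplication by an integer -/
lemma Dom.mul (b : ℕ) (t : ℝ) (c : ℤ) : Dom b t (c * t) := by
  intro C0
  refine ⟨|(c : ℝ)| * C0, |(c : ℝ)| + 1, by positivity, 1, 1, le_rfl, le_rfl, fun U hU =>
    ⟨fun K => c * U K, fun K => ?_, fun N => ?_⟩⟩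
  · have e : (((c * U K : ℤ)) : ℝ) - (b : ℝ) ^ K * (c * t) = c * ((U K : ℝ) - (b : ℝ) ^ K * t) := by
      push_cast; ring
    rw [e, abs_mul]
    exact mul_le_mul_of_nonneg_left (hU K) (abs_nonneg _)
  · have e : V b (fun K => c * U K) N = |c| * V b U N := by
      unfold V
      rw [Finset.mul_sum]
      apply Finset.sum_congr rfl
      intro k _
      rw [← abs_mul]
      cases k with
      | zero => rfl
      | succ k => simp only [dlt]; ring_nf
    rw [e, one_mul, pow_one]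
    have h0 := V_nonneg' b U N
    have h1 : ((|c| * V b U N : ℤ) : ℝ) = |(c : ℝ)| * (V b U N : ℝ) := by
      push_cast; rfl
    rw [h1]
    nlinarith [abs_nonneg (c : ℝ)]

/-- division by the base -/
lemma Dom.shift (b : ℕ) (t : ℝ) : Dom b (b * t) t := by
  intro C0
  refine ⟨|C0| + |t|, 1, one_pos, 1, 1, le_rfl, le_rfl, fun U hU =>
    ⟨fun K => if K = 0 then 0 else U (K - 1), fun K => ?_, fun N => ?_⟩⟩
  · cases K with
    | zero =>
      simp only [if_true, pow_zero, one_mul, Int.cast_zero, zero_sub, abs_neg]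
      linarith [abs_nonneg C0]
    | succ K =>
      simp only [Nat.succ_ne_zero, if_false, Nat.add_sub_cancel]
      have h1 := hU K
      have e : (b : ℝ) ^ (K + 1) * t = (b : ℝ) ^ K * (b * t) := by rw [pow_succ]; ring
      rw [e]
      linarith [abs_nonneg t, le_abs_self C0]
  · rw [one_mul, one_mul, pow_one]
    have key : V b (fun K => if K = 0 then 0 else U (K - 1)) N ≤ V b U N := by
      have h2 : ∀ n : ℕ, V b (fun K => if K = 0 then 0 else U (K - 1)) (n + 1) = V b U n := by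
        intro n
        unfold V
        rw [Finset.sum_range_succ']
        have e0 : dlt b (fun K => if K = 0 then 0 else U (K - 1)) 0 = 0 := by simp [dlt]
        rw [e0, abs_zero, add_zero]
        apply Finset.sum_congr rfl
        intro k _
        cases k with
        | zero => simp [dlt]
        | succ k => simp [dlt]
      cases N with
      | zero =>
        have e0 : V b (fun K => if K = 0 then 0 else U (K - 1)) 0 = 0 := by simp [V, dlt]
        rw [e0]
        exact V_nonneg b U 0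
      | succ n =>
        rw [h2 n]
        exact V_mono b U (Nat.le_succ n)
    have h3 : ((V b (fun K => if K = 0 then 0 else U (K - 1)) N : ℤ) : ℝ) ≤ (V b U N : ℝ) := by
      exact_mod_cast key
    linarith

/-- division by a prime number which does not divide the base -/
lemma Dom.div (b : ℕ) (hb : 2 ≤ b) (p : ℕ) (hp : p.Prime) (hpb : ¬ p ∣ b) (a : ℝ)
    (ha : IsIntegral ℤ a) : Dom b (p * a) a := by
  have : Fact p.Prime := ⟨hp⟩
  have hbp : (b : ZMod p) ≠ 0 := by rwa [Ne, ZMod.natCast_eq_zero_iff]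
  have hp0 : (p : ℝ) ≠ 0 := by exact_mod_cast hp.ne_zero
  intro C0
  obtain ⟨j, F, hF, hD, hroot⟩ := nilp_poly p 1 le_rfl ((p : ℝ) * a) a ha (by rw [pow_one])
  obtain ⟨C, hC, h⟩ := step p b hb hbp j F 1 one_ne_zero hF hD _ C0 hroot
  refine ⟨C0 + 1, C, hC, p ^ j, F.natDegree, Nat.one_le_iff_ne_zero.2 (pow_ne_zero _ hp.ne_zero),
    hD, fun U hU => ⟨fun K => U K / p, fun K => ?_, fun N => (h U hU N).2⟩⟩
  have h1 := approx_div p b hp.pos U _ C0 hU K
  rwa [mul_div_cancel_left₀ _ hp0] at h1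

/-- **Division by an integer.** -/
theorem Dom.int (b : ℕ) (hb : 2 ≤ b) (x : ℝ) (hx : IsIntegral ℤ x) :
    ∀ n : ℕ, 1 ≤ n → Dom b (n * x) x := by
  intro n
  induction n using Nat.strong_induction_on with
  | _ n ih =>
    intro hn
    rcases Nat.eq_or_lt_of_le hn with h1 | h1
    · rw [← h1]
      simpa using Dom.refl b x
    · obtain ⟨p, hp, c, rfl⟩ := Nat.exists_prime_and_dvd (show n ≠ 1 by omega)
      have hc : 1 ≤ c := by
        rcases Nat.eq_zero_or_pos c with h | h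
        · subst h; simp at h1
        · exact h
      have hlt : c < p * c := by nlinarith [hp.two_le]
      have h2 := ih c hlt hc
      refine Dom.trans ?_ h2
      by_cases hpb : p ∣ b
      · obtain ⟨e, rfl⟩ := hpb
        have h3 := Dom.mul (p * e) (((p * c : ℕ) : ℝ) * x) e
        have h4 : (((e : ℤ)) : ℝ) * (((p * c : ℕ) : ℝ) * x) = ((p * e : ℕ) : ℝ) * ((c : ℝ) * x) := by
          push_cast; ring
        rw [h4] at h3
        exact h3.trans (Dom.shift _ _)
      · have h3 := Dom.div b hb p hp hpb ((c : ℝ) * x)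
          (IsIntegral.mul (isIntegral_algebraMap (R := ℤ) (x := (c : ℤ))) hx)
        have h4 : (((p * c : ℕ)) : ℝ) * x = (p : ℝ) * ((c : ℝ) * x) := by push_cast; ring
        rw [h4]
        exact h3

theorem Dom.int' (b : ℕ) (hb : 2 ≤ b) (x : ℝ) (hx : IsIntegral ℤ x) (c : ℤ) (hc : c ≠ 0) :
    Dom b (c * x) x := by
  have h1 := Dom.int b hb x hx c.natAbs (Nat.one_le_iff_ne_zero.2 (Int.natAbs_ne_zero.2 hc))
  rcases Int.natAbs_eq c with h | h
  · have e : (c : ℝ) = ((c.natAbs : ℕ) : ℝ) := by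
      conv_lhs => rw [h]
      simp
    rw [e]; exact h1
  · have h2 := Dom.mul b ((c : ℝ) * x) (-1)
    have e : (((-1 : ℤ)) : ℝ) * ((c : ℝ) * x) = ((c.natAbs : ℕ) : ℝ) * x := by
      have e' : (c : ℝ) = -((c.natAbs : ℕ) : ℝ) := by
        conv_lhs => rw [h]
        simp
      rw [e']; push_cast; ring
    rw [e] at h2
    exact h2.trans h1

end Pool.Agent.V5helper55.CR
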