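import Pool.Agent.V5helper55.CR.Rel
import Pool.Agent.R473.PP.Fail

/-!
# Predictors, compressors and locally constant digits
-/

set_option autoImplicit false

namespace Pool.Agent.V5helper55.CR

open Polynomial Finset Pool.Agent.H323R2 Pool.Agent.R473.PP Pool.Agent.W979.HS

/-- failures of periodicity and locally constant digits -/
theorem ncst_fails (b : ℕ) (hb : 2 ≤ b) (x : ℝ) (d : ℕ) (hx : IsIntegral ℤ ((d : ℝ) * x)) (r P : ℕ)
    (hP : 1 ≤ P) :
    ∃ C : ℝ, 0 < C ∧ ∃ M κ : ℕ, 1 ≤ M ∧ 1 ≤ κ ∧ ∀ a : ℕ → Fin b,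
      (∀ i, ((a i : ℕ) : ℤ) = dg b x (i + 1)) → ∀ N n : ℕ, M * N ≤ n →
      (ncst b (d * x) r N : ℝ) ≤ C * (1 + (fails a P n : ℝ)) ^ κ := by
  have hbz : (2 : ℤ) ≤ b := by exact_mod_cast hb
  have hq : ∑ j ∈ range (P + 1), (if j = 0 then (1 : ℤ) else if j = P then -1 else 0) * (b : ℤ) ^ j ≠ 0 := by
    have h1 := rel_sum P hP (fun j => (b : ℤ) ^ j) 0
    simp only [zero_add, pow_zero] at h1
    rw [h1]
    have h2 : (b : ℤ) ^ 1 ≤ (b : ℤ) ^ P := pow_le_pow_right₀ (by linarith) hP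
    rw [pow_one] at h2
    intro h3
    linarith
  obtain ⟨C, hC, M, κ, hM, hκ, h⟩ := ncst_rel' b hb x d hx r P _ 0 hq
  refine ⟨C * (1 + P) ^ κ, by positivity, M, κ, hM, hκ, fun a ha N n hn => ?_⟩
  have h1 : cnt b x P (fun j => if j = 0 then (1 : ℤ) else if j = P then -1 else 0) 0 (M * N) ≤
      fails a P n + P := by
    have hsub : ((range (M * N)).filter (fun k : ℕ =>
        ∑ j ∈ range (P + 1), (if j = 0 then (1 : ℤ) else if j = P then -1 else 0) *
          (⌊x * (b : ℝ) ^ (k + 1 + j)⌋ % (b : ℤ)) ≠ 0)) ⊆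
        ((range n).filter fun k => k + P < n ∧ a k ≠ a (k + P)) ∪ Ico (n - P) n := by
      intro k hk
      rw [Finset.mem_filter, Finset.mem_range] at hk
      rw [Finset.mem_union, Finset.mem_filter, Finset.mem_range, Finset.mem_Ico]
      by_cases h2 : k + P < n
      · left
        refine ⟨by omega, h2, fun heq => hk.2 ?_⟩
        have h3 := rel_sum P hP (fun j => dg b x j) (k + 1)
        have h4 := ha k
        have h5 := ha (k + P)
        rw [← heq, h4] at h5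
        rw [show k + 1 + P = k + P + 1 by ring, ← h5, sub_self] at h3
        exact h3
      · right
        omega
    refine (Finset.card_le_card hsub).trans ((Finset.card_union_le _ _).trans ?_)
    rw [Nat.card_Ico]
    exact Nat.add_le_add le_rfl (by omega)
  have h2 : (cnt b x P (fun j => if j = 0 then (1 : ℤ) else if j = P then -1 else 0) 0 (M * N) : ℝ) ≤
      (fails a P n : ℝ) + P := by exact_mod_cast h1
  have h3 : (0 : ℝ) ≤ (fails a P n : ℝ) := Nat.cast_nonneg _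
  have h4 : (0 : ℝ) ≤ (P : ℝ) := Nat.cast_nonneg _
  refine (h N).trans ?_
  calc C * (1 + (cnt b x P (fun j => if j = 0 then (1 : ℤ) else if j = P then -1 else 0) 0 (M * N) : ℝ)) ^ κ
      ≤ C * ((1 + P) * (1 + (fails a P n : ℝ))) ^ κ := by
        apply mul_le_mul_of_nonneg_left _ hC.le
        apply pow_le_pow_left₀ (by positivity)
        nlinarith
    _ = _ := by rw [mul_pow]; ring

/-- from failures to any quantity which bounds them -/
lemma ncst_of_fails (b : ℕ) (hb : 2 ≤ b) (x : ℝ) (d : ℕ) (hx : IsIntegral ℤ ((d : ℝ) * x)) (r P : ℕ)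
    (hP : 1 ≤ P) (A : ℕ) :
    ∃ C : ℝ, 0 < C ∧ ∃ M κ : ℕ, 1 ≤ M ∧ 1 ≤ κ ∧ ∀ a : ℕ → Fin b,
      (∀ i, ((a i : ℕ) : ℤ) = dg b x (i + 1)) → ∀ N n w : ℕ, M * N ≤ n → fails a P n ≤ A * (w + 1) →
      (ncst b (d * x) r N : ℝ) ≤ C * (1 + (w : ℝ)) ^ κ := by
  obtain ⟨C, hC, M, κ, hM, hκ, h⟩ := ncst_fails b hb x d hx r P hP
  refine ⟨C * (1 + A) ^ κ, by positivity, M, κ, hM, hκ, fun a ha N n w hn hw => ?_⟩
  have h1 : (fails a P n : ℝ) ≤ A * (w + 1) := by exact_mod_cast hw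
  have h2 : (0 : ℝ) ≤ (w : ℝ) := Nat.cast_nonneg _
  have h3 : (0 : ℝ) ≤ (A : ℝ) := Nat.cast_nonneg _
  have h4 : (0 : ℝ) ≤ (fails a P n : ℝ) := Nat.cast_nonneg _
  refine (h a ha N n hn).trans ?_
  calc C * (1 + (fails a P n : ℝ)) ^ κ ≤ C * ((1 + A) * (1 + w)) ^ κ := by
        apply mul_le_mul_of_nonneg_left _ hC.le
        apply pow_le_pow_left₀ (by positivity)
        nlinarith
    _ = _ := by rw [mul_pow]; ring

/-- **Pushdown predictors.** -/
theorem ncst_predictor (b : ℕ) (hb : 2 ≤ b) (x : ℝ) (d : ℕ) (hx : IsIntegral ℤ ((d : ℝ) * x)) (r : ℕ)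
    {Q Γ : Type} [Fintype Q] [Fintype Γ] (A : Predictor b Q Γ) :
    ∃ C : ℝ, 0 < C ∧ ∃ M κ : ℕ, 1 ≤ M ∧ 1 ≤ κ ∧ ∀ a : ℕ → Fin b,
      (∀ i, ((a i : ℕ) : ℤ) = dg b x (i + 1)) → ∀ (q₀ : Q) (N T : ℕ), M * N ≤ (A.conf q₀ a T).1 →
      (ncst b (d * x) r N : ℝ) ≤ C * (1 + (A.wrong q₀ a T : ℝ)) ^ κ := by
  obtain ⟨P, B, hP, h⟩ := predictor_fail A
  obtain ⟨C, hC, M, κ, hM, hκ, h2⟩ := ncst_of_fails b hb x d hx r P hP B
  exact ⟨C, hC, M, κ, hM, hκ, fun a ha q₀ N T hT => h2 a ha N _ _ hT (h q₀ a _ T le_rfl)⟩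

/-- **Lossless compressors.** -/
theorem ncst_compressor (b : ℕ) (hb : 2 ≤ b) (x : ℝ) (d : ℕ) (hx : IsIntegral ℤ ((d : ℝ) * x)) (r : ℕ)
    (Q : ℕ) :
    ∃ C : ℝ, 0 < C ∧ ∃ M κ : ℕ, 1 ≤ M ∧ 1 ≤ κ ∧ ∀ a : ℕ → Fin b,
      (∀ i, ((a i : ℕ) : ℤ) = dg b x (i + 1)) → ∀ (β : Type) [DecidableEq β]
      (δ : Fin Q → Fin b → Fin Q) (o : Fin Q → Fin b → List β) (q₀ : Fin Q), Lossless δ o q₀ →
      ∀ N : ℕ, (ncst b (d * x) r N : ℝ) ≤ C * (1 + (writes δ o q₀ a (M * N) : ℝ)) ^ κ := by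
  obtain ⟨C, hC, M, κ, hM, hκ, h2⟩ := ncst_of_fails b hb x d hx r Q.factorial
    (Nat.one_le_iff_ne_zero.2 (Nat.factorial_ne_zero _)) ((Q.factorial + 1) * (Q + 1))
  exact ⟨C, hC, M, κ, hM, hκ, fun a ha β _ δ o q₀ hl N =>
    h2 a ha N (M * N) _ le_rfl (comp_fail δ o q₀ hl a (M * N))⟩

section finite

variable {b : ℕ} {Q : Type}

/-- the state of the finite automaton after `n` terms of the sequence `a` -/
def fst' (δ : Q → Fin b → Q) (q₀ : Q) (a : ℕ → Fin b) : ℕ → Q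
  | 0 => q₀
  | n + 1 => δ (fst' δ q₀ a n) (a n)

/-- the number of the wrong guesses among the first `N`; before the term `a k` is read, the automaton
guesses `g s`, where `s` is its state -/
def errs (δ : Q → Fin b → Q) (g : Q → Fin b) (q₀ : Q) (a : ℕ → Fin b) (N : ℕ) : ℕ :=
  ((range N).filter fun k => g (fst' δ q₀ a k) ≠ a k).card

lemma errs_mono (δ : Q → Fin b → Q) (g : Q → Fin b) (q₀ : Q) (a : ℕ → Fin b) {N N' : ℕ}
    (h : N ≤ N') : errs δ g q₀ a N ≤ errs δ g q₀ a N' := by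
  unfold errs
  apply Finset.card_le_card
  apply Finset.filter_subset_filter
  intro i hi
  rw [Finset.mem_range] at *
  omega

/-- a finite automaton as a pushdown predictor -/
def toPred (δ : Q → Fin b → Q) (g : Q → Fin b) : Predictor b Q Empty where
  internal _ _ := none
  guess q _ := g q
  read q _ a := (δ q a, .stay)

lemma toPred_conf (δ : Q → Fin b → Q) (g : Q → Fin b) (q₀ : Q) (a : ℕ → Fin b) (T : ℕ) :
    (toPred δ g).conf q₀ a T = (T, fst' δ q₀ a T, []) := by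
  induction T with
  | zero => rfl
  | succ T ih =>
    rw [Predictor.conf_succ, ih]
    simp [Predictor.step, toPred, fst', Act.app]

lemma toPred_wrong (δ : Q → Fin b → Q) (g : Q → Fin b) (q₀ : Q) (a : ℕ → Fin b) (T : ℕ) :
    (toPred δ g).wrong q₀ a T = errs δ g q₀ a T := by
  classical
  unfold Predictor.wrong errs
  apply congrArg
  apply Finset.filter_congr
  intro t _
  unfold Predictor.Wrong
  rw [toPred_conf]
  simp [toPred]

lemma fst'_run (δ : Q → Fin b → Q) (q₀ : Q) (a : ℕ → Fin b) (K L : ℕ) (c : Fin b)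
    (h : ∀ j < L, a (K + j) = c) : ∀ i ≤ L, fst' δ q₀ a (K + i) = (fun y => δ y c)^[i] (fst' δ q₀ a K) := by
  intro i
  induction i with
  | zero => intro _; rfl
  | succ i ih =>
    intro hi
    rw [Function.iterate_succ_apply', ← ih (by omega), ← h i (by omega)]
    rfl

/-- an automaton which cannot follow the constant sequence `c` makes errors in all long runs of `c` -/
lemma runs_le [Fintype Q] (δ : Q → Fin b → Q) (g : Q → Fin b) (c : Fin b)
    (hc : ∀ q, ∃ i, g ((fun y => δ y c)^[i] q) ≠ c) :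
    ∃ L : ℕ, 1 ≤ L ∧ ∀ (q₀ : Q) (a : ℕ → Fin b) (N : ℕ),
      ((range N).filter fun K => ∀ j < L, a (K + j) = c).card ≤ L * errs δ g q₀ a (N + L) := by
  classical
  choose I hI using hc
  obtain ⟨L, hL⟩ : ∃ L, L = univ.sup I + 1 := ⟨_, rfl⟩
  refine ⟨L, by omega, fun q₀ a N => ?_⟩
  have hsub : ((range N).filter fun K => ∀ j < L, a (K + j) = c) ⊆
      (range L).biUnion fun i => (range N).filter fun K => g (fst' δ q₀ a (K + i)) ≠ a (K + i) := by
    intro K hK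
    rw [Finset.mem_filter] at hK
    have h1 : I (fst' δ q₀ a K) < L := by
      have : I (fst' δ q₀ a K) ≤ univ.sup I := Finset.le_sup (Finset.mem_univ _)
      omega
    rw [Finset.mem_biUnion]
    refine ⟨I (fst' δ q₀ a K), Finset.mem_range.2 h1, Finset.mem_filter.2 ⟨hK.1, ?_⟩⟩
    rw [hK.2 _ h1, fst'_run δ q₀ a K L c hK.2 _ h1.le]
    exact hI _
  refine (Finset.card_le_card hsub).trans (Finset.card_biUnion_le.trans ?_)
  rw [← Finset.card_range L, ← smul_eq_mul, Finset.card_range]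
  refine (Finset.sum_le_card_nsmul _ _ (errs δ g q₀ a (N + L)) fun i hi => ?_).trans (by simp)
  rw [Finset.mem_range] at hi
  unfold errs
  apply Finset.card_le_card_of_injOn (fun K => K + i)
  · intro K hK
    rw [Finset.mem_coe, Finset.mem_filter, Finset.mem_range] at hK ⊢
    exact ⟨by show K + i < N + L; omega, hK.2⟩
  · intro K _ K' _ h
    have h' : K + i = K' + i := h
    omega

/-- **Finite automata which cannot follow both constant sequences make `N ^ δ` errors.** -/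
theorem finite_pow (hb : 2 ≤ b) (x : ℝ) (hx : IsIntegral ℤ x) (hirr : Irrational x) [Fintype Q]
    (δ : Q → Fin b → Q) (g : Q → Fin b) (c : Fin b) (hcv : (c : ℕ) = 0 ∨ (c : ℕ) = b - 1)
    (hc : ∀ q, ∃ i, g ((fun y => δ y c)^[i] q) ≠ c) :
    ∃ C : ℝ, 0 < C ∧ ∃ M κ : ℕ, 1 ≤ M ∧ 1 ≤ κ ∧ ∀ a : ℕ → Fin b,
      (∀ i, ((a i : ℕ) : ℤ) = dg b x (i + 1)) → ∀ (q₀ : Q) (N : ℕ),
      (N : ℝ) ≤ C * (1 + (errs δ g q₀ a (M * N) : ℝ)) ^ κ := by
  classical
  have halg : IsAlgebraic ℚ x := (hx.tower_top (A := ℚ)).isAlgebraic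
  obtain ⟨L, hL, hruns⟩ := runs_le δ g c hc
  obtain ⟨C, hC, M, κ, hM, hκ, h⟩ := ncst_predictor b hb x 1 (by simpa using hx) L (toPred δ g)
  obtain ⟨z, hz, hzc⟩ : ∃ z : ℤ, (z = 0 ∨ z = b - 1) ∧ ((c : ℕ) : ℤ) = z := by
    refine ⟨((c : ℕ) : ℤ), ?_, rfl⟩
    rcases hcv with h1 | h1
    · left; exact_mod_cast h1
    · right; rw [h1]; push_cast [show 1 ≤ b by omega]; ring
  obtain ⟨C', hC', D, hD, h'⟩ := pow_of_runs b hb x halg hirr z hz L hL
  refine ⟨C' * (1 + C + L) ^ D, by positivity, M * (L + 1), κ * D,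
    Nat.mul_pos hM (Nat.succ_pos L), Nat.mul_pos hκ hD, fun a ha q₀ N => ?_⟩
  rcases Nat.eq_zero_or_pos N with h0 | h0
  · rw [h0]
    push_cast
    positivity
  have hmon1 : errs δ g q₀ a (M * N) ≤ errs δ g q₀ a (M * (L + 1) * N) :=
    errs_mono δ g q₀ a (by nlinarith [Nat.zero_le (M * L * N)])
  have hmon2 : errs δ g q₀ a (N + L) ≤ errs δ g q₀ a (M * (L + 1) * N) :=
    errs_mono δ g q₀ a (by nlinarith [Nat.zero_le (L * N), Nat.mul_le_mul hM (Nat.le_refl (N * L)), Nat.mul_le_mul hM (Nat.le_refl N), Nat.mul_le_mul h0 (Nat.le_refl L)])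
  obtain ⟨E, hE⟩ : ∃ E : ℝ, E = (errs δ g q₀ a (M * (L + 1) * N) : ℝ) := ⟨_, rfl⟩
  have hE0 : 0 ≤ E := by rw [hE]; exact Nat.cast_nonneg _
  have hmon1' : (errs δ g q₀ a (M * N) : ℝ) ≤ E := by rw [hE]; exact_mod_cast hmon1
  have hmon2' : (errs δ g q₀ a (N + L) : ℝ) ≤ E := by rw [hE]; exact_mod_cast hmon2
  obtain ⟨W, hW⟩ : ∃ W : ℝ, W = (1 + E) ^ κ := ⟨_, rfl⟩
  have hW1 : 1 + E ≤ W := by
    rw [hW]; exact le_self_pow₀ (by linarith) (by omega)
  have h1 := h a ha q₀ N (M * N) (by rw [toPred_conf])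
  rw [toPred_wrong] at h1
  simp only [Nat.cast_one, one_mul] at h1
  have h2 : (ncst b x L N : ℝ) ≤ C * W := by
    refine h1.trans (mul_le_mul_of_nonneg_left ?_ hC.le)
    rw [hW]
    exact pow_le_pow_left₀ (by positivity) (by linarith) _
  have h3 : (((range N).filter fun K => ∀ j < L, dg b x (K + 1 + j) = z).card : ℝ) ≤ L * E := by
    have h4 : ((range N).filter fun K => ∀ j < L, dg b x (K + 1 + j) = z).card ≤
        ((range N).filter fun K => ∀ j < L, a (K + j) = c).card := by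
      apply Finset.card_le_card
      intro K hK
      rw [Finset.mem_filter] at hK ⊢
      refine ⟨hK.1, fun j hj => ?_⟩
      have h5 := hK.2 j hj
      have h6 := ha (K + j)
      rw [show K + j + 1 = K + 1 + j by ring, h5, ← hzc] at h6
      apply Fin.ext
      exact_mod_cast h6
    have h7 := (h4.trans (hruns q₀ a N))
    have h8 : (((range N).filter fun K => ∀ j < L, dg b x (K + 1 + j) = z).card : ℝ) ≤
        L * (errs δ g q₀ a (N + L) : ℝ) := by exact_mod_cast h7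
    have h9 : (0 : ℝ) ≤ (L : ℝ) := Nat.cast_nonneg _
    nlinarith
  have hL0 : (0 : ℝ) ≤ (L : ℝ) := Nat.cast_nonneg _
  have h4 := h' N ((C + L) * W) (by nlinarith) (by nlinarith) (by nlinarith)
  rw [← hE]
  calc (N : ℝ) ≤ C' * (1 + (C + L) * W) ^ D := h4
    _ ≤ C' * ((1 + C + L) * W) ^ D := by
        apply mul_le_mul_of_nonneg_left _ hC'.le
        exact pow_le_pow_left₀ (by nlinarith) (by nlinarith) _
    _ = _ := by rw [hW, mul_pow, ← pow_mul]; ring

end finite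

end Pool.Agent.V5helper55.CR
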