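import Pool.Agent.V5helper55.CR.Win
import Pool.Agent.R474.AG.Auto

/-!
# Linear relations between consecutive digits and locally constant digits
-/

set_option autoImplicit false

namespace Pool.Agent.V5helper55.CR

open Polynomial Finset Pool.Agent.H323R2

/-- the sequence which belongs to a relation (compare `H323R2.cnt_of_good`) -/
lemma rel_U (b : ℕ) (hb : 2 ≤ b) (x : ℝ) (m : ℕ) (q : ℕ → ℤ) (e : ℤ) :
    ∃ (C0 u B : ℝ) (U : ℕ → ℤ), 0 ≤ u ∧ 0 ≤ B ∧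
      (∀ K, |(U K : ℝ) - (b : ℝ) ^ K *
        (((((b : ℤ) - 1) * ∑ j ∈ range (m + 1), q j * (b : ℤ) ^ j : ℤ) : ℝ) * x)| ≤ C0) ∧
      ∀ N, (V b U N : ℝ) ≤ u + B * (cnt b x m q e N : ℝ) := by
  have hb1 : (0 : ℝ) ≤ (b : ℝ) - 1 := by
    have : (2 : ℝ) ≤ b := by exact_mod_cast hb
    linarith
  have hb0 : (0 : ℤ) < b := by exact_mod_cast (by omega : 0 < b)
  have hb1' : (0 : ℤ) ≤ (b : ℤ) - 1 := by linarith
  obtain ⟨f, hf⟩ : ∃ f : ℕ → ℤ, f = fun K => ⌊x * (b : ℝ) ^ K⌋ := ⟨_, rfl⟩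
  obtain ⟨U, hU⟩ : ∃ U : ℕ → ℤ, U = fun K => ((b : ℤ) - 1) * ∑ j ∈ range (m + 1), q j * f (K + j) + e :=
    ⟨_, rfl⟩
  obtain ⟨B, hB⟩ : ∃ B : ℤ, B = ((b : ℤ) - 1) * (∑ j ∈ range (m + 1), |q j| * b + |e|) := ⟨_, rfl⟩
  have hB0 : 0 ≤ B := by
    rw [hB]
    apply mul_nonneg hb1'
    apply add_nonneg _ (abs_nonneg _)
    exact Finset.sum_nonneg fun j _ => mul_nonneg (abs_nonneg _) hb0.le
  refine ⟨((b : ℝ) - 1) * ∑ j ∈ range (m + 1), |(q j : ℝ)| + |(e : ℝ)|, |(U 0 : ℝ)|, (B : ℝ), U,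
    abs_nonneg _, by exact_mod_cast hB0, fun K => ?_, fun N => ?_⟩
  · have e0 : ((((b : ℤ) - 1) * ∑ j ∈ range (m + 1), q j * (b : ℤ) ^ j : ℤ) : ℝ) =
        ((b : ℝ) - 1) * ∑ j ∈ range (m + 1), (q j : ℝ) * (b : ℝ) ^ j := by push_cast; rfl
    rw [e0]
    have e1 : (U K : ℝ) - (b : ℝ) ^ K * ((((b : ℝ) - 1) * ∑ j ∈ range (m + 1),
      (q j : ℝ) * (b : ℝ) ^ j) * x) = ((b : ℝ) - 1) * ∑ j ∈ range (m + 1),
        (q j : ℝ) * ((f (K + j) : ℝ) - x * (b : ℝ) ^ (K + j)) + e := by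
      rw [hU]
      push_cast
      rw [show (b : ℝ) ^ K * ((((b : ℝ) - 1) * ∑ j ∈ range (m + 1), (q j : ℝ) * (b : ℝ) ^ j) * x) =
        ((b : ℝ) - 1) * ((∑ j ∈ range (m + 1), (q j : ℝ) * (b : ℝ) ^ j) * ((b : ℝ) ^ K * x)) by ring,
        Finset.sum_mul]
      rw [show (((b : ℝ) - 1) * ∑ j ∈ range (m + 1), (q j : ℝ) * (f (K + j) : ℝ) + (e : ℝ) -
        ((b : ℝ) - 1) * ∑ j ∈ range (m + 1), (q j : ℝ) * (b : ℝ) ^ j * ((b : ℝ) ^ K * x)) =
        ((b : ℝ) - 1) * (∑ j ∈ range (m + 1), (q j : ℝ) * (f (K + j) : ℝ) -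
        ∑ j ∈ range (m + 1), (q j : ℝ) * (b : ℝ) ^ j * ((b : ℝ) ^ K * x)) + e by ring,
        ← Finset.sum_sub_distrib]
      congr 2
      apply Finset.sum_congr rfl
      intro j _
      rw [pow_add]; ring
    rw [e1]
    refine (abs_add_le _ _).trans ?_
    apply add_le_add _ le_rfl
    rw [abs_mul, abs_of_nonneg hb1]
    apply mul_le_mul_of_nonneg_left _ hb1
    refine (Finset.abs_sum_le_sum_abs _ _).trans ?_
    apply Finset.sum_le_sum
    intro j _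
    rw [abs_mul]
    have a1 := Int.floor_le (x * (b : ℝ) ^ (K + j))
    have a2 := Int.lt_floor_add_one (x * (b : ℝ) ^ (K + j))
    have a3 : |(f (K + j) : ℝ) - x * (b : ℝ) ^ (K + j)| ≤ 1 := by
      rw [hf]
      simp only
      rw [abs_le]
      constructor <;> linarith
    calc |(q j : ℝ)| * |(f (K + j) : ℝ) - x * (b : ℝ) ^ (K + j)| ≤ |(q j : ℝ)| * 1 :=
          mul_le_mul_of_nonneg_left a3 (abs_nonneg _)
      _ = _ := mul_one _
  · have hV : V b U N ≤ |U 0| + B * (cnt b x m q e N : ℤ) := by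
      unfold V cnt
      rw [Finset.sum_range_succ', add_comm, Finset.card_filter]
      push_cast
      rw [Finset.mul_sum]
      apply add_le_add (le_of_eq rfl)
      apply Finset.sum_le_sum
      intro k _
      have e4 : dlt b U (k + 1) = ((b : ℤ) - 1) *
          (∑ j ∈ range (m + 1), q j * (⌊x * (b : ℝ) ^ (k + 1 + j)⌋ % (b : ℤ)) - e) := by
        have e5 : ∀ j, q j * (⌊x * (b : ℝ) ^ (k + 1 + j)⌋ % (b : ℤ)) =
            q j * f (k + 1 + j) - b * (q j * f (k + j)) := by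
          intro j
          have := digit_eq b hb x (k + j)
          rw [show k + 1 + j = k + j + 1 by ring, this]
          simp only [hf]
          ring
        simp_rw [e5]
        rw [Finset.sum_sub_distrib, ← Finset.mul_sum]
        simp only [dlt, hU]
        ring
      rw [e4]
      split_ifs with hc
      · rw [mul_one, abs_mul, abs_of_nonneg hb1', hB]
        apply mul_le_mul_of_nonneg_left _ hb1'
        refine (abs_sub _ _).trans ?_
        apply add_le_add _ le_rfl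
        refine (Finset.abs_sum_le_sum_abs _ _).trans ?_
        apply Finset.sum_le_sum
        intro j _
        rw [abs_mul]
        apply mul_le_mul_of_nonneg_left _ (abs_nonneg _)
        have r1 := Int.emod_nonneg ⌊x * (b : ℝ) ^ (k + 1 + j)⌋ hb0.ne'
        have r2 := Int.emod_lt_of_pos ⌊x * (b : ℝ) ^ (k + 1 + j)⌋ hb0
        rw [abs_of_nonneg r1]
        exact r2.le
      · rw [not_not] at hc
        rw [hc]; simp
    have h2 : ((V b U N : ℤ) : ℝ) ≤ ((|U 0| + B * (cnt b x m q e N : ℤ) : ℤ) : ℝ) := by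
      exact_mod_cast hV
    push_cast at h2
    exact h2

/-- **Relations and locally constant digits.** -/
theorem ncst_rel' (b : ℕ) (hb : 2 ≤ b) (x : ℝ) (d : ℕ) (hx : IsIntegral ℤ ((d : ℝ) * x)) (r m : ℕ)
    (q : ℕ → ℤ) (e : ℤ) (hq : ∑ j ∈ range (m + 1), q j * (b : ℤ) ^ j ≠ 0) :
    ∃ C : ℝ, 0 < C ∧ ∃ M κ : ℕ, 1 ≤ M ∧ 1 ≤ κ ∧ ∀ N : ℕ,
      (ncst b (d * x) r N : ℝ) ≤ C * (1 + (cnt b x m q e (M * N) : ℝ)) ^ κ := by
  obtain ⟨C0, u, B, U, hu, hB, hU, hV⟩ := rel_U b hb x m q e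
  have hb1 : ((b : ℤ) - 1) ≠ 0 := by
    have : (2 : ℤ) ≤ b := by exact_mod_cast hb
    omega
  obtain ⟨C, hC, M, κ, hM, hκ, h⟩ := ncst_dom b hb x d hx _ (mul_ne_zero hb1 hq) r C0
  refine ⟨C * (1 + u + B) ^ κ, by positivity, M, κ, hM, hκ, fun N => (h U hU N).trans ?_⟩
  have h1 := hV (M * N)
  have h2 := V_nonneg' b U (M * N)
  have h3 : 1 + (V b U (M * N) : ℝ) ≤ (1 + u + B) * (1 + (cnt b x m q e (M * N) : ℝ)) := by
    have hc0 : (0 : ℝ) ≤ (cnt b x m q e (M * N) : ℝ) := Nat.cast_nonneg _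
    nlinarith
  calc C * (1 + (V b U (M * N) : ℝ)) ^ κ
      ≤ C * ((1 + u + B) * (1 + (cnt b x m q e (M * N) : ℝ))) ^ κ :=
        mul_le_mul_of_nonneg_left (pow_le_pow_left₀ (by linarith) h3 _) hC.le
    _ = _ := by rw [mul_pow]; ring

theorem ncst_rel (b : ℕ) (hb : 2 ≤ b) (x : ℝ) (hx : IsIntegral ℤ x) (r m : ℕ) (q : ℕ → ℤ) (e : ℤ)
    (hq : ∑ j ∈ range (m + 1), q j * (b : ℤ) ^ j ≠ 0) :
    ∃ C : ℝ, 0 < C ∧ ∃ M κ : ℕ, 1 ≤ M ∧ 1 ≤ κ ∧ ∀ N : ℕ,
      (ncst b x r N : ℝ) ≤ C * (1 + (cnt b x m q e (M * N) : ℝ)) ^ κ := by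
  have h := ncst_rel' b hb x 1 (by simpa using hx) r m q e hq
  simpa using h

/-- the number of `K < N` for which the digit `K + 1` is not `e` -/
noncomputable def oth (b : ℕ) (x : ℝ) (e : ℤ) (N : ℕ) : ℕ :=
  ((range N).filter fun K => dg b x (K + 1) ≠ e).card

/-- the theorem of Bailey, Borwein, Crandall and Pomerance -/
lemma oth_pow (b : ℕ) (hb : 2 ≤ b) (x : ℝ) (halg : IsAlgebraic ℚ x) (hirr : Irrational x) :
    ∃ C : ℝ, 0 < C ∧ ∃ D : ℕ, 1 ≤ D ∧ ∀ e : ℤ, (e = 0 ∨ e = b - 1) → ∀ N : ℕ,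
      (N : ℝ) ≤ C * (1 + (oth b x e N : ℝ)) ^ D := by
  obtain ⟨c, hc, n₀, h⟩ := Pool.Agent.R474.AG.cover_alg hb halg hirr
  obtain ⟨D, hD⟩ : ∃ D, D = (minpoly ℚ x).natDegree := ⟨_, rfl⟩
  rw [← hD] at h
  have hD1 : 1 ≤ D := by rw [hD]; exact minpoly.natDegree_pos halg.isIntegral
  refine ⟨1 / c + n₀, by positivity, D, hD1, fun e he N => ?_⟩
  have hk0 : (0 : ℝ) ≤ (oth b x e N : ℝ) := Nat.cast_nonneg _
  have hk1 : (1 : ℝ) ≤ (1 + (oth b x e N : ℝ)) ^ D := one_le_pow₀ (by linarith)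
  rcases le_or_gt n₀ N with hN | hN
  · -- the list of the places
    obtain ⟨S, hS⟩ : ∃ S : Finset ℕ, S = (range N).filter fun K => dg b x (K + 1) ≠ e := ⟨_, rfl⟩
    have hcard : S.card = oth b x e N := by rw [hS]; rfl
    obtain ⟨u, hu⟩ : ∃ u : ℕ → ℕ, u = fun i => if h : i < S.card then S.orderEmbOfFin rfl ⟨i, h⟩ + 1 else 0 :=
      ⟨_, rfl⟩
    have h1 := h e he N S.card u u hN (fun _ _ => le_rfl) (by
      intro k hk hne
      rw [Finset.mem_Icc] at hk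
      have hkS : k - 1 ∈ S := by
        rw [hS, Finset.mem_filter, Finset.mem_range]
        refine ⟨by omega, ?_⟩
        rw [Nat.sub_add_cancel hk.1]
        exact hne
      have hr : k - 1 ∈ Set.range (S.orderEmbOfFin rfl) := by
        rw [Finset.range_orderEmbOfFin]; exact hkS
      obtain ⟨i, hi⟩ := hr
      refine ⟨i, i.2, ?_⟩
      have : u i = k := by
        rw [hu]
        simp only [Fin.is_lt, dif_pos, Fin.eta]
        rw [hi]; omega
      omega)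
    have h2 : ((∑ i ∈ range S.card, (u i + 1 - u i) : ℕ) : ℝ) = (oth b x e N : ℝ) := by
      rw [← hcard]
      have : ∀ i ∈ range S.card, u i + 1 - u i = 1 := fun i _ => by omega
      rw [Finset.sum_congr rfl this]
      simp
    rw [h2, hcard] at h1
    have h3 : (oth b x e N : ℝ) ^ (D - 1) * (oth b x e N : ℝ) ≤ (1 + (oth b x e N : ℝ)) ^ D := by
      rw [← pow_succ, Nat.sub_add_cancel hD1]
      exact pow_le_pow_left₀ hk0 (by linarith) _
    have h4 : (N : ℝ) ≤ 1 / c * (1 + (oth b x e N : ℝ)) ^ D := by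
      rw [div_mul_eq_mul_div, one_mul, le_div_iff₀ hc]
      linarith
    have : (0 : ℝ) ≤ n₀ := Nat.cast_nonneg _
    nlinarith
  · have h1 : (N : ℝ) ≤ n₀ := by exact_mod_cast hN.le
    have h2 : (0 : ℝ) ≤ 1 / c := by positivity
    have h3 : (0 : ℝ) ≤ n₀ := Nat.cast_nonneg _
    nlinarith

/-- If the digits are locally constant up to an error `F`, and if the runs of zeros or the runs of
the digit `b - 1` have only `F` places, then `F` is at least a power of `N`. -/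
lemma pow_of_runs (b : ℕ) (hb : 2 ≤ b) (x : ℝ) (halg : IsAlgebraic ℚ x) (hirr : Irrational x)
    (a : ℤ) (ha : a = 0 ∨ a = b - 1) (r : ℕ) (hr : 1 ≤ r) :
    ∃ C : ℝ, 0 < C ∧ ∃ D : ℕ, 1 ≤ D ∧ ∀ (N : ℕ) (F : ℝ), 0 ≤ F → (ncst b x r N : ℝ) ≤ F →
      (((range N).filter fun K => ∀ j < r, dg b x (K + 1 + j) = a).card : ℝ) ≤ F →
      (N : ℝ) ≤ C * (1 + F) ^ D := by
  classical
  obtain ⟨C, hC, D, hD, h⟩ := oth_pow b hb x halg hirr
  refine ⟨C * 2 ^ D, by positivity, D, hD, fun N F hF0 h1 h2 => ?_⟩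
  obtain ⟨a', ha', hcase⟩ : ∃ a' : ℤ, (a' = 0 ∨ a' = b - 1) ∧ ∀ K, Cst b x r K →
      (∀ j < r, dg b x (K + 1 + j) = a) ∨ dg b x (K + 1) = a' := by
    rcases ha with rfl | rfl
    · refine ⟨(b : ℤ) - 1, Or.inr rfl, fun K hK => ?_⟩
      rcases hK with h | h
      · exact Or.inl h
      · exact Or.inr (h 0 (by omega))
    · refine ⟨0, Or.inl rfl, fun K hK => ?_⟩
      rcases hK with h | h
      · exact Or.inr (h 0 (by omega))
      · exact Or.inl h
  have h3 : oth b x a' N ≤ ncst b x r N +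
      ((range N).filter fun K => ∀ j < r, dg b x (K + 1 + j) = a).card := by
    unfold oth ncst
    refine le_trans (Finset.card_le_card ?_) (Finset.card_union_le _ _)
    intro K hK
    rw [Finset.mem_filter] at hK
    rw [Finset.mem_union, Finset.mem_filter, Finset.mem_filter]
    by_cases hc : Cst b x r K
    · rcases hcase K hc with h4 | h4
      · exact Or.inr ⟨hK.1, h4⟩
      · exact absurd h4 hK.2
    · exact Or.inl ⟨hK.1, hc⟩
  have h4 : (oth b x a' N : ℝ) ≤ 2 * F := by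
    have : (oth b x a' N : ℝ) ≤ (ncst b x r N : ℝ) +
      (((range N).filter fun K => ∀ j < r, dg b x (K + 1 + j) = a).card : ℝ) := by exact_mod_cast h3
    linarith
  have h5 := h a' ha' N
  calc (N : ℝ) ≤ C * (1 + (oth b x a' N : ℝ)) ^ D := h5
    _ ≤ C * (2 * (1 + F)) ^ D := by
        apply mul_le_mul_of_nonneg_left _ hC.le
        exact pow_le_pow_left₀ (by positivity) (by linarith) _
    _ = _ := by rw [mul_pow]; ring

/-- **Relations which do not hold in both kinds of runs fail at `N ^ δ` places.** -/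
theorem rel_pow (b : ℕ) (hb : 2 ≤ b) (x : ℝ) (hx : IsIntegral ℤ x) (hirr : Irrational x)
    (m : ℕ) (q : ℕ → ℤ) (e : ℤ) (hq : ∑ j ∈ range (m + 1), q j * (b : ℤ) ^ j ≠ 0)
    (hne : ¬ (e = 0 ∧ ∑ j ∈ range (m + 1), q j = 0)) :
    ∃ C : ℝ, 0 < C ∧ ∃ M κ : ℕ, 1 ≤ M ∧ 1 ≤ κ ∧ ∀ N : ℕ,
      (N : ℝ) ≤ C * (1 + (cnt b x m q e (M * N) : ℝ)) ^ κ := by
  classical
  have halg : IsAlgebraic ℚ x := (hx.tower_top (A := ℚ)).isAlgebraic
  obtain ⟨C, hC, M, κ, hM, hκ, h⟩ := ncst_rel b hb x hx (m + 1) m q e hq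
  -- the runs in which the relation fails
  obtain ⟨a, ha, hfail⟩ : ∃ a : ℤ, (a = 0 ∨ a = b - 1) ∧ ∀ K,
      (∀ j < m + 1, dg b x (K + 1 + j) = a) →
      ∑ j ∈ range (m + 1), q j * (⌊x * (b : ℝ) ^ (K + 1 + j)⌋ % (b : ℤ)) ≠ e := by
    have hsum : ∀ (a : ℤ) (K : ℕ), (∀ j < m + 1, dg b x (K + 1 + j) = a) →
        ∑ j ∈ range (m + 1), q j * (⌊x * (b : ℝ) ^ (K + 1 + j)⌋ % (b : ℤ)) =
          a * ∑ j ∈ range (m + 1), q j := by
      intro a K hK
      rw [Finset.mul_sum]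
      apply Finset.sum_congr rfl
      intro j hj
      have := hK j (Finset.mem_range.1 hj)
      unfold dg at this
      rw [this]; ring
    by_cases he : e = 0
    · refine ⟨(b : ℤ) - 1, Or.inr rfl, fun K hK => ?_⟩
      rw [hsum _ K hK, he]
      have h1 : ∑ j ∈ range (m + 1), q j ≠ 0 := fun h0 => hne ⟨he, h0⟩
      have h2 : ((b : ℤ) - 1) ≠ 0 := by
        have : (2 : ℤ) ≤ b := by exact_mod_cast hb
        omega
      exact mul_ne_zero h2 h1
    · refine ⟨0, Or.inl rfl, fun K hK => ?_⟩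
      rw [hsum _ K hK, zero_mul]
      exact fun h0 => he h0.symm
  obtain ⟨C', hC', D, hD, h'⟩ := pow_of_runs b hb x halg hirr a ha (m + 1) (Nat.le_add_left 1 m)
  refine ⟨C' * (2 + C) ^ D, by positivity, M, κ * D, hM, Nat.mul_pos hκ hD, fun N => ?_⟩
  have hc0 : (0 : ℝ) ≤ (cnt b x m q e (M * N) : ℝ) := Nat.cast_nonneg _
  obtain ⟨W, hW⟩ : ∃ W : ℝ, W = (1 + (cnt b x m q e (M * N) : ℝ)) ^ κ := ⟨_, rfl⟩
  have hW1 : 1 + (cnt b x m q e (M * N) : ℝ) ≤ W := by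
    rw [hW]; exact le_self_pow₀ (by linarith) (by omega)
  have h1 := h N
  rw [← hW] at h1
  have h2 : (((range N).filter fun K => ∀ j < m + 1, dg b x (K + 1 + j) = a).card : ℝ) ≤
      (cnt b x m q e (M * N) : ℝ) := by
    have h3 : ((range N).filter fun K => ∀ j < m + 1, dg b x (K + 1 + j) = a).card ≤
        cnt b x m q e N := by
      unfold cnt
      apply Finset.card_le_card
      intro K hK
      rw [Finset.mem_filter] at hK ⊢
      exact ⟨hK.1, hfail K hK.2⟩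
    exact_mod_cast h3.trans (cnt_mono b x m q e (Nat.le_mul_of_pos_left _ hM))
  have h3 := h' N ((1 + C) * W) (by nlinarith) (by nlinarith) (by nlinarith)
  calc (N : ℝ) ≤ C' * (1 + (1 + C) * W) ^ D := h3
    _ ≤ C' * ((2 + C) * W) ^ D := by
        apply mul_le_mul_of_nonneg_left _ hC'.le
        exact pow_le_pow_left₀ (by nlinarith) (by nlinarith) _
    _ = _ := by rw [hW, mul_pow, ← pow_mul]; ring

end Pool.Agent.V5helper55.CR
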