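import Pool.Agent.V5helper55.CR.Dom

/-!
# Digits of `x` where a sparse integer approximation of `b ^ K x` does not change
-/

set_option autoImplicit false

namespace Pool.Agent.V5helper55.CR

open Polynomial Finset Pool.Agent.H323R2

/-- the `k`-th digit of `x` after the point in base `b` -/
noncomputable def dg (b : ℕ) (x : ℝ) (k : ℕ) : ℤ := ⌊x * (b : ℝ) ^ k⌋ % (b : ℤ)

/-- the `r` digits `K + 1, …, K + r` are all `0` or all `b - 1` -/
def Cst (b : ℕ) (x : ℝ) (r K : ℕ) : Prop :=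
  (∀ j < r, dg b x (K + 1 + j) = 0) ∨ (∀ j < r, dg b x (K + 1 + j) = (b : ℤ) - 1)

lemma cst_of_near (b : ℕ) (hb : 2 ≤ b) (x : ℝ) (r K : ℕ) (n : ℤ)
    (h : |(n : ℝ) - (b : ℝ) ^ K * x| * (b : ℝ) ^ r < 1) : Cst b x r K := by
  have hb0 : (0 : ℝ) < b := by positivity
  have hb1 : (1 : ℝ) ≤ b := by exact_mod_cast (by omega : 1 ≤ b)
  obtain ⟨ε, hε⟩ : ∃ ε, ε = (b : ℝ) ^ K * x - n := ⟨_, rfl⟩
  have hε' : |ε| * (b : ℝ) ^ r < 1 := by rw [hε, abs_sub_comm]; exact h
  have hx : ∀ j, x * (b : ℝ) ^ (K + 1 + j) = ((n * (b : ℤ) ^ (j + 1) : ℤ) : ℝ) + ε * (b : ℝ) ^ (j + 1) := by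
    intro j
    rw [hε]; push_cast
    rw [show K + 1 + j = K + (j + 1) by ring, pow_add]; ring
  have hsm : ∀ j < r, |ε| * (b : ℝ) ^ (j + 1) < 1 := by
    intro j hj
    refine lt_of_le_of_lt ?_ hε'
    exact mul_le_mul_of_nonneg_left (pow_le_pow_right₀ hb1 (by omega)) (abs_nonneg _)
  have hdvd : ∀ j : ℕ, (b : ℤ) ∣ n * (b : ℤ) ^ (j + 1) := fun j =>
    Dvd.dvd.mul_left (dvd_pow_self _ (by omega)) _
  rcases le_or_gt 0 ε with h0 | h0
  · left
    intro j hj
    unfold dg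
    rw [hx j, Int.floor_intCast_add]
    have h1 := hsm j hj
    rw [abs_of_nonneg h0] at h1
    have h2 : ⌊ε * (b : ℝ) ^ (j + 1)⌋ = 0 := by
      rw [Int.floor_eq_zero_iff]
      exact ⟨by positivity, h1⟩
    rw [h2, add_zero]
    exact Int.emod_eq_zero_of_dvd (hdvd j)
  · right
    intro j hj
    unfold dg
    rw [hx j, Int.floor_intCast_add]
    have h1 := hsm j hj
    rw [abs_of_neg h0] at h1
    have hp : (0 : ℝ) < (b : ℝ) ^ (j + 1) := by positivity
    have h2 : ⌊ε * (b : ℝ) ^ (j + 1)⌋ = -1 := by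
      rw [Int.floor_eq_iff]
      push_cast
      exact ⟨by linarith, by nlinarith⟩
    rw [h2]
    obtain ⟨c, hc⟩ := hdvd j
    rw [hc]
    have h3 : (b : ℤ) * c + -1 = ((b : ℤ) - 1) + b * (c - 1) := by ring
    rw [h3, Int.add_mul_emod_self_left]
    have hbz : (2 : ℤ) ≤ b := by exact_mod_cast hb
    exact Int.emod_eq_of_lt (by linarith) (by linarith)

open Classical in
/-- the number of `K < N` for which the digits `K + 1, …, K + r` are neither all `0` nor all
`b - 1` -/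
noncomputable def ncst (b : ℕ) (x : ℝ) (r N : ℕ) : ℕ := ((range N).filter fun K => ¬ Cst b x r K).card

lemma card_dlt_le (b : ℕ) (U : ℕ → ℤ) (N i : ℕ) :
    (((range N).filter fun K => dlt b U (K + i) ≠ 0).card : ℤ) ≤ V b U (N + i) := by
  rw [Finset.card_filter]
  push_cast
  unfold V
  have h1 : ∑ K ∈ range N, (if dlt b U (K + i) ≠ 0 then (1 : ℤ) else 0) ≤
      ∑ K ∈ range N, |dlt b U (K + i)| := by
    apply Finset.sum_le_sum
    intro K _
    split_ifs with h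
    · exact Int.one_le_abs h
    · exact abs_nonneg _
  refine h1.trans ?_
  have h2 : ∑ K ∈ range N, |dlt b U (K + i)| = ∑ k ∈ (range N).map (addRightEmbedding i), |dlt b U k| := by
    rw [Finset.sum_map]; rfl
  rw [h2]
  apply Finset.sum_le_sum_of_subset_of_nonneg
  · intro k hk
    rw [Finset.mem_map] at hk
    obtain ⟨a, ha, rfl⟩ := hk
    rw [Finset.mem_range] at ha ⊢
    show a + i < N + i + 1
    omega
  · intro _ _ _; exact abs_nonneg _

lemma ncst_le (b : ℕ) (hb : 2 ≤ b) (x : ℝ) (r : ℕ) (C0 : ℝ) :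
    ∃ L : ℕ, 1 ≤ L ∧ ∀ U : ℕ → ℤ, (∀ K, |(U K : ℝ) - (b : ℝ) ^ K * x| ≤ C0) →
      ∀ N : ℕ, (ncst b x r N : ℝ) ≤ L * (V b U (N + L) : ℝ) := by
  classical
  have hb0 : (0 : ℝ) < b := by positivity
  have hb1 : (1 : ℝ) < b := by exact_mod_cast (by omega : 1 < b)
  obtain ⟨L, hL⟩ := pow_unbounded_of_one_lt (|C0| * (b : ℝ) ^ r) hb1
  refine ⟨L + 1, Nat.le_add_left 1 L, fun U hU N => ?_⟩
  have hsub : (range N).filter (fun K => ¬ Cst b x r K) ⊆
      (range (L + 1)).biUnion fun i => (range N).filter fun K => dlt b U (K + (i + 1)) ≠ 0 := by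
    intro K hK
    rw [Finset.mem_filter] at hK
    by_contra hcon
    apply hK.2
    have h0 : ∀ i < L + 1, dlt b U (K + (i + 1)) = 0 := by
      intro i hi
      by_contra hne
      exact hcon (Finset.mem_biUnion.2 ⟨i, Finset.mem_range.2 hi, Finset.mem_filter.2 ⟨hK.1, hne⟩⟩)
    have h1 : ∀ i ≤ L + 1, U (K + i) = (b : ℤ) ^ i * U K := by
      intro i
      induction i with
      | zero => intro _; simp
      | succ i ih =>
        intro hi
        have h2 := h0 i (by omega)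
        have h3 : dlt b U (K + (i + 1)) = U (K + i + 1) - b * U (K + i) := rfl
        rw [h3, ih (by omega)] at h2
        rw [show K + (i + 1) = K + i + 1 by ring, pow_succ]
        linarith
    have h2 := hU (K + L)
    rw [h1 L (by omega)] at h2
    apply cst_of_near b hb x r K (U K)
    have h3 : (((b : ℤ) ^ L * U K : ℤ) : ℝ) - (b : ℝ) ^ (K + L) * x =
        (b : ℝ) ^ L * ((U K : ℝ) - (b : ℝ) ^ K * x) := by
      push_cast; rw [pow_add]; ring
    rw [h3, abs_mul, abs_of_pos (by positivity)] at h2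
    have h4 : (b : ℝ) ^ L * (|(U K : ℝ) - (b : ℝ) ^ K * x| * (b : ℝ) ^ r) < (b : ℝ) ^ L * 1 := by
      calc (b : ℝ) ^ L * (|(U K : ℝ) - (b : ℝ) ^ K * x| * (b : ℝ) ^ r)
          = (b : ℝ) ^ L * |(U K : ℝ) - (b : ℝ) ^ K * x| * (b : ℝ) ^ r := by ring
        _ ≤ |C0| * (b : ℝ) ^ r := by
            apply mul_le_mul_of_nonneg_right (h2.trans (le_abs_self _)) (by positivity)
        _ < (b : ℝ) ^ L * 1 := by rw [mul_one]; exact hL
    exact lt_of_mul_lt_mul_left h4 (by positivity)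
  have h1 : (ncst b x r N : ℤ) ≤ ∑ i ∈ range (L + 1), V b U (N + (L + 1)) := by
    unfold ncst
    calc (((range N).filter fun K => ¬ Cst b x r K).card : ℤ)
        ≤ ((((range (L + 1)).biUnion fun i =>
            (range N).filter fun K => dlt b U (K + (i + 1)) ≠ 0).card : ℕ) : ℤ) := by
          exact_mod_cast Finset.card_le_card hsub
      _ ≤ ((∑ i ∈ range (L + 1), ((range N).filter fun K => dlt b U (K + (i + 1)) ≠ 0).card : ℕ) : ℤ) := by
          exact_mod_cast Finset.card_biUnion_le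
      _ ≤ ∑ i ∈ range (L + 1), V b U (N + (L + 1)) := by
          push_cast
          apply Finset.sum_le_sum
          intro i hi
          rw [Finset.mem_range] at hi
          exact (card_dlt_le b U N (i + 1)).trans (V_mono b U (by omega))
  rw [Finset.sum_const, Finset.card_range, nsmul_eq_mul] at h1
  have h2 : ((ncst b x r N : ℤ) : ℝ) ≤ ((((L + 1 : ℕ) : ℤ) * V b U (N + (L + 1)) : ℤ) : ℝ) := by
    exact_mod_cast h1
  push_cast at h2 ⊢
  exact h2

/-- **Main lemma.** Let `d x` be a real algebraic integer and `c ≠ 0` an integer. The digits of `d x`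
are locally constant where a sparse integer approximation of `b ^ K c x` does not change. -/
theorem ncst_dom (b : ℕ) (hb : 2 ≤ b) (x : ℝ) (d : ℕ) (hx : IsIntegral ℤ ((d : ℝ) * x)) (c : ℤ)
    (hc : c ≠ 0) (r : ℕ) (C0 : ℝ) : ∃ C : ℝ, 0 < C ∧ ∃ m κ : ℕ, 1 ≤ m ∧ 1 ≤ κ ∧ ∀ U : ℕ → ℤ,
      (∀ K, |(U K : ℝ) - (b : ℝ) ^ K * (c * x)| ≤ C0) → ∀ N : ℕ,
        (ncst b (d * x) r N : ℝ) ≤ C * (1 + (V b U (m * N) : ℝ)) ^ κ := by
  have hdom : Dom b (c * x) (d * x) := by
    have h1 := Dom.mul b ((c : ℝ) * x) (d : ℤ)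
    have h2 := Dom.int' b hb ((d : ℝ) * x) hx c hc
    have e : (((d : ℤ) : ℝ)) * ((c : ℝ) * x) = (c : ℝ) * ((d : ℝ) * x) := by push_cast; ring
    rw [e] at h1
    exact h1.trans h2
  obtain ⟨C1, C, hC, m, κ, hm, hκ, h⟩ := hdom C0
  obtain ⟨L, hL, h2⟩ := ncst_le b hb (d * x) r C1
  refine ⟨L * C, by positivity, m * (L + 1), κ, Nat.mul_pos hm (Nat.succ_pos L), hκ,
    fun U hU N => ?_⟩
  obtain ⟨U', hU', hV'⟩ := h U hU
  rcases Nat.eq_zero_or_pos N with h0 | h0
  · subst h0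
    have h3 : ncst b (d * x) r 0 = 0 := by simp [ncst]
    rw [h3]
    have := V_nonneg' b U (m * (L + 1) * 0)
    push_cast
    positivity
  · have h3 := h2 U' hU' N
    have h4 : (V b U' (N + L) : ℝ) ≤ (V b U' ((L + 1) * N) : ℝ) := by
      exact_mod_cast V_mono b U' (by nlinarith)
    have h5 := hV' ((L + 1) * N)
    rw [← mul_assoc] at h5
    calc (ncst b (d * x) r N : ℝ) ≤ L * (V b U' (N + L) : ℝ) := h3
      _ ≤ L * (C * (1 + (V b U (m * (L + 1) * N) : ℝ)) ^ κ) :=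
          mul_le_mul_of_nonneg_left (h4.trans h5) (by positivity)
      _ = _ := by ring

end Pool.Agent.V5helper55.CR
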